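import Mathlib
import Pool.Agent.H.MP_b27533_gt.A

namespace Pool.Agent.Results.MP_b27533_gt.No

open MeasureTheory Metric

section
variable {H : Type} [NormedAddCommGroup H] [InnerProductSpace ℝ H]

/-- symmetry group: affine isometries preserving the set -/
def Sym (A : Set H) : Set (H ≃ᵃⁱ[ℝ] H) := {T | T '' A = A}

/-- ellipsoids with arbitrary centre -/
def IsEllipsoid (E : Set H) : Prop :=
  ∃ (c : H) (S : H ≃ₗ[ℝ] H), E = (fun x => c + S x) '' closedBall 0 1

/-- complete families of isometries -/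
def IsCompleteGroup (G : Set (H ≃ᵃⁱ[ℝ] H)) : Prop :=
  ∀ E : Set H, IsEllipsoid E → G ⊆ Sym E → ∃ (c : H) (r : ℝ), E = closedBall c r

/-- completely symmetric convex bodies -/
def CompletelySymmetric [FiniteDimensional ℝ H] [MeasurableSpace H] [BorelSpace H]
    (A : Set H) : Prop :=
  IsCompact A ∧ (interior A).Nonempty ∧ (⨍ x in A, x) = 0 ∧ IsCompleteGroup (Sym A)

/-- planar sets having all symmetries of a square centred at the origin -/
def SquareSym [FiniteDimensional ℝ H] (A : Set H) : Prop :=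
  (fun x => -x) '' A = A ∧ ∃ b : OrthonormalBasis (Fin 2) ℝ H,
    (ℝ ∙ b 0).reflection '' A = A ∧ (ℝ ∙ (b 0 + b 1)).reflection '' A = A

/-- linear images of completely symmetric sets with the symmetries of a square -/
def LinImage [FiniteDimensional ℝ H] [MeasurableSpace H] [BorelSpace H] (B : Set H) : Prop :=
  ∃ (T : H ≃ₗ[ℝ] H) (A : Set H), B = T '' A ∧ CompletelySymmetric A ∧ SquareSym A

/-- the orthogonal projection of `K` onto the hyperplane orthogonal to `u` is such an image -/
def GoodProj [FiniteDimensional ℝ H] [MeasurableSpace H] [BorelSpace H] (K : Set H) (u : H) :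
    Prop :=
  LinImage ((ℝ ∙ u)ᗮ.orthogonalProjectionOnto '' K)

/-- origin-symmetric ellipsoids -/
def OriginEllipsoid (K : Set H) : Prop := ∃ T : H ≃ₗ[ℝ] H, K = T '' closedBall 0 1

end

theorem result : ∃ K : Set (EuclideanSpace ℝ (Fin 3)),
    IsCompact K ∧ Convex ℝ K ∧ (interior K).Nonempty ∧
    (∀ u : EuclideanSpace ℝ (Fin 3), ‖u‖ = 1 → GoodProj K u) ∧ ¬ OriginEllipsoid K := by
  open Pool.Agent.H.MP_b27533_gt in
  refine ⟨K, K_compact, K_convex, ⟨0, interior_maximal (ball_subset_closedBall.trans ball_sub)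
    isOpen_ball (mem_ball_self one_pos)⟩, fun u hu => ?_, not_ell⟩
  obtain ⟨T, A, b, h1, h2, h3, h4, h5, h6⟩ := Pool.Agent.H.MP_b27533_gt.main u hu
  refine ⟨T, A, h1, ⟨h2, h3, ?_, ?_⟩, h4, b, h5, h6⟩
  · have hm : MeasurableSet A := h2.measurableSet
    have hneg : ∀ x, -x ∈ A ↔ x ∈ A := by
      intro x
      constructor
      · intro hx; rw [← h4]; exact ⟨-x, hx, neg_neg x⟩
      · intro hx; rw [← h4]; exact ⟨x, hx, rfl⟩
    have e : ∫ x in A, x = -∫ x in A, x := by
      rw [← integral_indicator hm, ← integral_neg]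
      rw [← integral_neg_eq_self]
      congr 1
      funext x
      by_cases hx : x ∈ A
      · simp [Set.indicator, hx, hneg]
      · simp [Set.indicator, hx, hneg]
    have e2 : ∫ x in A, x = 0 := by
      have : (2 : ℝ) • ∫ x in A, x = 0 := by
        rw [two_smul]; nth_rewrite 1 [e]; simp
      simpa using this
    rw [setAverage_eq, e2, smul_zero]
  · rintro E ⟨c, S, hE⟩ hG
    refine Pool.Agent.H.MP_b27533_gt.ball_of b c S E hE ?_ ?_ ?_
    · exact hG (a := (LinearIsometryEquiv.neg ℝ).toAffineIsometryEquiv) h4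
    · exact hG (a := (ℝ ∙ b 0).reflection.toAffineIsometryEquiv) h5
    · exact hG (a := (ℝ ∙ (b 0 + b 1)).reflection.toAffineIsometryEquiv) h6

end Pool.Agent.Results.MP_b27533_gt.No
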